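import Pool.Agent.N973.P15G.Defs2
import Pool.Agent.N973.P15G.Kap
import Pool.Agent.N971.P15G.Cnf
import Pool.Agent.N971.P15G.C1
import Pool.Agent.N871.P15G.C2b
import Pool.Agent.N975.S21.Sum
import Pool.Agent.N975.S17.Ram

/-!
# P15G: the Eisenstein part vanishes
-/

set_option autoImplicit false

open Finset

namespace Pool.Agent.N218.P15G

open Pool.Agent.N969.P15 (un V3 Ev chE)
open Pool.Agent.N969.P17G (chP chM bdE)
open Pool.Agent.N973.P15G
open N877.P21 (rr)
open Pool.Agent.N975.S17 (Chr0 chr0O chr0E sum_unZ)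

/-- the character of a negative discriminant -/
theorem chr_M {m : ℕ} (hm : Ng m) : Chr0 m (chM m) := by
  rcases hm with ⟨h1, h2⟩ | h
  · have e : chM m = fun u => jacobiSym u m := funext fun u => chM_odd h1 h2 u
    rw [e]
    exact chr0O h2
  · have e : chM m = chE m := funext fun u => chM_even h u
    rw [e]
    exact chr0E h

/-- the two functions at the cusps `u / m` and `1 / (w u m)` -/
theorem sum_low {A m : ℕ} (hm : Ng m) (F β : ℤ → ℤ) (w : ℤ) (hw : IsCoprime w (m : ℤ))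
    (hχ : chM m w = 1)
    (h : ∀ x y : ℤ, (m : ℤ) ∣ w * (x * y) - 1 → 2 * F x = β x + β y) :
    ∑ u ∈ un m, chM m u * F u = ∑ u ∈ un m, chM m u * β u := by
  have hm0 := Ng_pos hm
  have : NeZero m := ⟨hm0.ne'⟩
  have X := chr_M hm
  have hwu : IsUnit ((w : ℤ) : ZMod m) := by
    rw [ZMod.coe_int_isUnit_iff_isCoprime]
    exact hw.symm
  set wu : (ZMod m)ˣ := hwu.unit with hwudef
  have hwv : ((wu : (ZMod m)ˣ) : ZMod m) = ((w : ℤ) : ZMod m) := hwu.unit_spec
  have hχw : chM m (((wu : ZMod m).val : ℕ) : ℤ) = 1 := by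
    rw [← hχ]
    refine X.per _ _ ?_
    rw [← ZMod.intCast_zmod_eq_zero_iff_dvd]
    push_cast
    rw [ZMod.natCast_zmod_val, hwv, sub_self]
  have hinv := Pool.Agent.N975.S21.sum_inv X wu hχw (fun v => β (v : ℤ))
  rw [sum_unZ, sum_unZ]
  have e1 : ∀ u : (ZMod m)ˣ, 2 * (chM m (((u : ZMod m).val : ℕ) : ℤ) *
      F (((u : ZMod m).val : ℕ) : ℤ)) =
      chM m (((u : ZMod m).val : ℕ) : ℤ) * β (((u : ZMod m).val : ℕ) : ℤ) +
      chM m (((u : ZMod m).val : ℕ) : ℤ) *
        β (((((wu * u)⁻¹ : (ZMod m)ˣ) : ZMod m).val : ℕ) : ℤ) := by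
    intro u
    have := h (((u : ZMod m).val : ℕ) : ℤ) (((((wu * u)⁻¹ : (ZMod m)ˣ) : ZMod m).val : ℕ) : ℤ) (by
      rw [← ZMod.intCast_zmod_eq_zero_iff_dvd]
      push_cast
      rw [ZMod.natCast_zmod_val, ZMod.natCast_zmod_val]
      have h7 : ((wu * u : (ZMod m)ˣ) : ZMod m) * (((wu * u)⁻¹ : (ZMod m)ˣ) : ZMod m) = 1 :=
        Units.mul_inv _
      rw [Units.val_mul, hwv] at h7
      linear_combination h7)
    linear_combination chM m (((u : ZMod m).val : ℕ) : ℤ) * this
  have e2 : 2 * ∑ u : (ZMod m)ˣ, chM m (((u : ZMod m).val : ℕ) : ℤ) *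
      F (((u : ZMod m).val : ℕ) : ℤ) =
      ∑ u : (ZMod m)ˣ, chM m (((u : ZMod m).val : ℕ) : ℤ) * β (((u : ZMod m).val : ℕ) : ℤ) +
      ∑ u : (ZMod m)ˣ, chM m (((u : ZMod m).val : ℕ) : ℤ) *
        β (((((wu * u)⁻¹ : (ZMod m)ˣ) : ZMod m).val : ℕ) : ℤ) := by
    rw [Finset.mul_sum, ← Finset.sum_add_distrib]
    exact Finset.sum_congr rfl fun u _ => e1 u
  rw [hinv] at e2
  linarith

/-- **EIS** -/
theorem s_EIS (hL : S_LOW) : S_EIS := by
  intro n A hn hU hA hm h3
  have hA0 := Ps_pos hA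
  have h3A : ¬ 3 ∣ A := by omega
  obtain ⟨⟨m, rfl⟩, hc⟩ := hU
  rw [div_self_mul hA0] at hm hc
  have hm0 := Ng_pos hm
  have h3m : 3 ∣ m := by
    have h : 3 ∣ A * m := dvd_trans (by norm_num) hn.2
    exact (Nat.Prime.dvd_mul Nat.prime_three).1 h |>.resolve_left h3A
  have c1 := (Pool.Agent.N971.P15G.t_C1 A m hA hm hc h3A hn.2).2.2
  have cn := Pool.Agent.N971.P15G.t_CNF A m hA hm hc h3A hn.2
  have low : ∑ u ∈ un m, chM m u * Fx w3 A u m = ∑ u ∈ un m, chM m u * bdE A u m :=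
    sum_low (A := A) hm (fun x => Fx w3 A x m) (fun x => bdE A x m) 1 isCoprime_one_left
      (chr_M hm).one (fun x y h => by
        rw [one_mul] at h
        exact hL A hA h3A x y m (by exact_mod_cast hm0) (by exact_mod_cast h3m) h)
  have hR := RR_sum hn A
  rw [sg_zero hA hm hc, sg_top hn.1 (dvd_mul_right A m)] at hR
  -- the sum over all `T` divisible by `3`
  have hS : S15 A (A * m) + S3 A (A * m) =
      ∑ T ∈ (range (A * m)).filter (fun T => 0 < T ∧ 3 ∣ T), sg A (A * m) T * l3 (A * m) T := by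
    unfold S15 S3
    rw [← Finset.sum_filter_add_sum_filter_not
      ((range (A * m)).filter (fun T => 0 < T ∧ 3 ∣ T)) (fun T => 5 ∣ T),
      Finset.filter_filter, Finset.filter_filter]
    congr 1
    · refine Finset.sum_congr ?_ fun T _ => rfl
      ext T
      simp only [Finset.mem_filter]
      constructor
      · rintro ⟨h1, h2, h4⟩
        exact ⟨h1, ⟨h2, by omega⟩, by omega⟩
      · rintro ⟨h1, ⟨h2, h4⟩, h5⟩
        exact ⟨h1, h2, by omega⟩
    · refine Finset.sum_congr ?_ fun T _ => rfl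
      ext T
      simp only [Finset.mem_filter]
      tauto
  have e0 : ∑ T ∈ (range (A * m)).filter (fun T => 3 ∣ T), W3 A m (A * m - T) T =
      ∑ T ∈ (range (A * m)).filter (fun T => 0 < T ∧ 3 ∣ T), W3 A m (A * m - T) T := by
    symm
    refine Finset.sum_subset ?_ ?_
    · intro T hT
      rw [Finset.mem_filter] at hT ⊢
      exact ⟨hT.1, hT.2.2⟩
    · intro T hT hT'
      rw [Finset.mem_filter] at hT hT'
      have : T = 0 := by
        by_contra h
        exact hT' ⟨hT.1, Nat.pos_of_ne_zero h, hT.2⟩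
      subst this
      unfold W3
      simp
  have h3n : 3 ∣ A * m := h3m.mul_left A
  have e1 : ∑ T ∈ (range (A * m)).filter (fun T => 0 < T ∧ 3 ∣ T), W3 A m (A * m - T) T =
      ∑ T ∈ (range (A * m)).filter (fun T => 0 < T ∧ 3 ∣ T), W3 A m T (A * m - T) := by
    refine Finset.sum_nbij' (fun T => A * m - T) (fun T => A * m - T) ?_ ?_ ?_ ?_ ?_
    · intro T hT
      simp only [Finset.mem_filter, Finset.mem_range] at hT ⊢
      refine ⟨by omega, by omega, ?_⟩
      exact Nat.dvd_sub h3n hT.2.2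
    · intro T hT
      simp only [Finset.mem_filter, Finset.mem_range] at hT ⊢
      refine ⟨by omega, by omega, ?_⟩
      exact Nat.dvd_sub h3n hT.2.2
    · intro T hT
      simp only [Finset.mem_filter, Finset.mem_range] at hT
      show A * m - (A * m - T) = T
      omega
    · intro T hT
      simp only [Finset.mem_filter, Finset.mem_range] at hT
      show A * m - (A * m - T) = T
      omega
    · intro T hT
      simp only [Finset.mem_filter, Finset.mem_range] at hT
      rw [Nat.sub_sub_self hT.1.le]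
  have e2 : ∑ T ∈ (range (A * m)).filter (fun T => 0 < T ∧ 3 ∣ T), W3 A m (A * m - T) T +
      ∑ T ∈ (range (A * m)).filter (fun T => 0 < T ∧ 3 ∣ T), W3 A m T (A * m - T) =
      - (S15 A (A * m) + S3 A (A * m)) := by
    rw [hS, ← Finset.sum_add_distrib, ← Finset.sum_neg_distrib]
    refine Finset.sum_congr rfl fun T hT => ?_
    simp only [Finset.mem_filter, Finset.mem_range] at hT
    exact Pool.Agent.N871.G15.t_C2L A m hA hm hc h3A hn.2 T hT.2.1 hT.1 hT.2.2
  rw [← e1] at e2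
  rw [e0, low] at c1
  linear_combination hR + 6 * c1 - 2 * cn + 6 * e2

end Pool.Agent.N218.P15G
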