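import Pool.Agent.N973.P17G.BILE
import Pool.Agent.N973.P15G.Kap

/-!
# P15G: the symmetry of the signs (even norms), any ramified prime
-/

set_option autoImplicit false

namespace Pool.Agent.N218.P15G

open Finset
open Pool.Agent.Z700 (hh fac)
open Pool.Agent.N969.P15 (V3 ep2 Ev tb tw psp un c2 chE)
open Pool.Agent.N969.P17G
open Pool.Agent.N973.P17G
open Pool.Agent.N975.ChE (ev_odd ev_mod chE_prime jac_sqfree c2_mul c2_one c2_pm)
open Pool.Agent.N975.CHB (chE_neg_one)

/-- the primes not dividing `n`; `r` is the ramified prime -/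
theorem Hr_neg' {n r : ℕ} (hev : Ev n) (hr : r.Prime) (hr2 : r ≠ 2) (hrn : ¬ r ∣ n)
    (hj17 : jacobiSym (-((n / 4 : ℕ) : ℤ)) r = -1) {E : ℕ} (hE0 : E ≠ 0)
    (h17 : Odd ((4 * E).factorization r))
    (hf : ∀ l : ℕ, l.Prime → l ∣ 4 * E → l ≠ 2 → l ≠ r → fac n (4 * E) l ≠ 0) :
    Hr n E = -1 := by
  have hm := ev_mod hev
  rw [fact_four hr hr2 hE0] at h17
  have hn4 : (n : ℤ) = 4 * ((n / 4 : ℕ) : ℤ) := by omega
  unfold Hr Finsupp.prod
  rw [Nat.support_factorization, Finset.prod_eq_single r]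
  · beta_reduce
    rw [if_neg hrn, hj17]
    exact Odd.neg_one_pow h17
  · intro l hl hl17
    have hlp := Nat.prime_of_mem_primeFactors hl
    have hlE := Nat.dvd_of_mem_primeFactors hl
    beta_reduce
    by_cases hln : l ∣ n
    · rw [if_pos hln, one_pow]
    · rw [if_neg hln]
      have hl2 : l ≠ 2 := by rintro rfl; omega
      have h1 := hf l hlp (Dvd.dvd.mul_left hlE 4) hl2 hl17
      unfold fac at h1
      rw [if_neg hln, fact_four hlp hl2 hE0] at h1
      have h2 : jacobiSym (-(n : ℤ)) l = jacobiSym (-((n / 4 : ℕ) : ℤ)) l := by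
        rw [hn4, ← mul_neg]
        exact jac_four hlp hl2 _
      rw [h2] at h1
      have h3 : ¬ (l : ℤ) ∣ -((n / 4 : ℕ) : ℤ) := by
        rw [dvd_neg]
        intro h4
        apply hln
        have h5 : l ∣ n / 4 := by exact_mod_cast h4
        exact h5.trans ⟨4, by omega⟩
      rcases jac_unit hlp h3 with h4 | h4
      · rw [h4, one_pow]
      · rw [h4] at h1 ⊢
        rcases Nat.even_or_odd (E.factorization l) with h5 | h5
        · exact Even.neg_one_pow h5
        · exfalso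
          apply h1
          rw [neg_one_geom_sum, if_pos]
          exact Odd.add_one h5
  · intro h1
    exfalso
    have h2 : E.factorization r = 0 := by
      rw [← Finsupp.notMem_support_iff, Nat.support_factorization]
      exact h1
    rw [h2] at h17
    exact absurd h17 (by decide)

/-- the odd primes dividing `n` -/
theorem Hp_neg' {n : ℕ} (hev : Ev n) {k S T : ℕ} (hST : S + T = k * n) (hS : 0 < S) (hT : 0 < T)
    (hf : ∀ l : ℕ, l.Prime → l ∣ n → l ∣ 4 * (S * T) → l ≠ 2 → fac n (4 * (S * T)) l ≠ 0)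
    {p : ℕ} (hp : p ∈ n.primeFactors.erase 2) : Hp n p (S * T) = jacobiSym (-1) p := by
  obtain ⟨hp2, hp⟩ := Finset.mem_erase.1 hp
  have hpp := Nat.prime_of_mem_primeFactors hp
  have hpn := Nat.dvd_of_mem_primeFactors hp
  have hE0 : S * T ≠ 0 := (Nat.mul_pos hS hT).ne'
  have hp1 : ¬ (p : ℤ) ∣ 1 := by
    intro h1
    have h2 : p ∣ 1 := by exact_mod_cast h1
    exact hpp.one_lt.ne' (Nat.dvd_one.1 h2)
  have hm1 : jacobiSym (-1) p * jacobiSym (-1) p = 1 :=
    jac_sq_cancel hpp (by rw [dvd_neg]; exact hp1)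
  have hEc : ¬ p ∣ S * T / p ^ (S * T).factorization p := Nat.not_dvd_ordCompl hpp hE0
  have hEz : ¬ (p : ℤ) ∣ ((S * T / p ^ (S * T).factorization p : ℕ) : ℤ) := by
    intro h1; exact hEc (by exact_mod_cast h1)
  have hE1 := jac_sq_cancel hpp hEz
  by_cases hpE : p ∣ S * T
  · have h1 := hf p hpp hpn (Dvd.dvd.mul_left hpE 4) hp2
    unfold fac at h1
    rw [if_pos hpn] at h1
    have e1 : 4 * (S * T) / p ^ (4 * (S * T)).factorization p =
        4 * (S * T / p ^ (S * T).factorization p) := by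
      rw [fact_four hpp hp2 hE0]
      exact Nat.mul_div_assoc _ (Nat.ordProj_dvd _ _)
    unfold hh at h1
    rw [e1, fact_four hpp hp2 hE0] at h1
    unfold Hp
    split_ifs at h1 with hev1
    · have e2 : jacobiSym (-((4 * (S * T / p ^ (S * T).factorization p) : ℕ) : ℤ)) p =
          jacobiSym (-1) p * jacobiSym ((S * T / p ^ (S * T).factorization p : ℕ) : ℤ) p := by
        rw [← jacobiSym.mul_left, neg_one_mul, Nat.cast_mul, ← mul_neg]
        exact jac_four hpp hp2 _
      rw [e2] at h1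
      obtain ⟨j, hj⟩ := hev1
      have hnp : ¬ (p : ℤ) ∣ ((n / p : ℕ) : ℤ) ∨ (p : ℤ) ∣ ((n / p : ℕ) : ℤ) := by tauto
      have e3 : jacobiSym ((n / p : ℕ) : ℤ) p ^ (S * T).factorization p =
          (jacobiSym ((n / p : ℕ) : ℤ) p * jacobiSym ((n / p : ℕ) : ℤ) p) ^ j := by
        rw [hj, ← two_mul, pow_mul, pow_two]
      have hnp2 : ¬ (p : ℤ) ∣ ((n / p : ℕ) : ℤ) := by
        intro h5
        have h6 : p ∣ n / p := by exact_mod_cast h5
        obtain ⟨m, hm, hs, hm4⟩ := hev

        have h7 : p * p ∣ n := by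
          obtain ⟨c, hc⟩ := h6
          exact ⟨c, by rw [← Nat.mul_div_cancel' hpn, hc]; ring⟩
        have h8 : p * p ∣ m := by
          rw [hm] at h7
          refine Nat.Coprime.dvd_of_dvd_mul_left ?_ h7
          have h9 : Nat.Coprime p 4 := by
            rw [show 4 = 2 ^ 2 by norm_num]
            exact Nat.Coprime.pow_right 2 ((Nat.coprime_primes hpp Nat.prime_two).2 hp2)
          exact Nat.Coprime.mul_left h9 h9
        exact hpp.one_lt.ne' (Nat.isUnit_iff.1 (hs p h8))
      rw [e3, jac_sq_cancel hpp hnp2, one_pow, mul_one]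
      rcases jac_unit hpp hEz with h4 | h4 <;>
        rcases jac_unit hpp (by rw [dvd_neg]; exact hp1 : ¬ (p : ℤ) ∣ -1) with h5 | h5 <;>
        rw [h4, h5] at h1 <;> rw [h4, h5] <;> norm_num at h1
    · have hodd : Odd ((S * T).factorization p) := Nat.not_even_iff_odd.1 hev1
      have e2 : jacobiSym (-((n / p * (4 * (S * T / p ^ (S * T).factorization p)) : ℕ) : ℤ)) p =
          jacobiSym (-1) p * (jacobiSym ((n / p : ℕ) : ℤ) p *
          jacobiSym ((S * T / p ^ (S * T).factorization p : ℕ) : ℤ) p) := by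
        rw [← jacobiSym.mul_left, ← jacobiSym.mul_left, neg_one_mul, Nat.cast_mul, Nat.cast_mul]
        have : -(((n / p : ℕ) : ℤ) * (((4 : ℕ) : ℤ) *
            ((S * T / p ^ (S * T).factorization p : ℕ) : ℤ))) =
            4 * -(((n / p : ℕ) : ℤ) * ((S * T / p ^ (S * T).factorization p : ℕ) : ℤ)) := by
          push_cast; ring
        rw [this]
        exact jac_four hpp hp2 _
      rw [e2] at h1
      obtain ⟨j, hj⟩ := hodd
      have hnp2 : ¬ (p : ℤ) ∣ ((n / p : ℕ) : ℤ) := by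
        intro h5
        have h6 : p ∣ n / p := by exact_mod_cast h5
        obtain ⟨m, hm, hs, hm4⟩ := hev

        have h7 : p * p ∣ n := by
          obtain ⟨c, hc⟩ := h6
          exact ⟨c, by rw [← Nat.mul_div_cancel' hpn, hc]; ring⟩
        have h8 : p * p ∣ m := by
          rw [hm] at h7
          refine Nat.Coprime.dvd_of_dvd_mul_left ?_ h7
          have h9 : Nat.Coprime p 4 := by
            rw [show 4 = 2 ^ 2 by norm_num]
            exact Nat.Coprime.pow_right 2 ((Nat.coprime_primes hpp Nat.prime_two).2 hp2)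
          exact Nat.Coprime.mul_left h9 h9
        exact hpp.one_lt.ne' (Nat.isUnit_iff.1 (hs p h8))
      have e3 : jacobiSym ((n / p : ℕ) : ℤ) p ^ (S * T).factorization p =
          jacobiSym ((n / p : ℕ) : ℤ) p := by
        rw [hj, pow_succ, pow_mul, pow_two, jac_sq_cancel hpp hnp2, one_pow, one_mul]
      rw [e3]
      rcases jac_unit hpp hEz with h4 | h4 <;>
        rcases jac_unit hpp (by rw [dvd_neg]; exact hp1 : ¬ (p : ℤ) ∣ -1) with h5 | h5 <;>
        rcases jac_unit hpp hnp2 with h6 | h6 <;>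
        rw [h4, h5, h6] at h1 <;> rw [h4, h5, h6] <;> revert h1 <;> norm_num
  · rw [Hp_cop n hpE]
    have hS' : ¬ p ∣ S := fun h => hpE (Dvd.dvd.mul_right h T)
    have hSz : ¬ (p : ℤ) ∣ (S : ℤ) := by intro h1; exact hS' (by exact_mod_cast h1)
    have e1 : ((S * T : ℕ) : ℤ) = (S : ℤ) * T := by push_cast; ring
    rw [e1, jac_congr (b := -1 * (S * S)), jacobiSym.mul_left, jacobiSym.mul_left (S : ℤ),
      jac_sq_cancel hpp hSz, mul_one]
    have h3 : (S : ℤ) * T - -1 * (S * S) = S * (k * n) := by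
      have : (S : ℤ) + T = k * n := by exact_mod_cast hST
      rw [← this]; ring
    rw [h3]
    exact Dvd.dvd.mul_left (Dvd.dvd.mul_left (by exact_mod_cast hpn) _) _

/-- **the signs at `2`** -/
theorem H2_sym' {n r : ℕ} (hev : Ev n) (hr : r.Prime) (hr2 : r ≠ 2) (hrn : ¬ r ∣ n)
    (hj : jacobiSym (-((n / 4 : ℕ) : ℤ)) r = -1) {k S T : ℕ} (hST : S + T = k * n) (hS : 0 < S)
    (hT : 0 < T) (ho : Odd ((4 * (S * T)).factorization r))
    (hf : ∀ l : ℕ, l.Prime → l ∣ 4 * (S * T) → l ≠ 2 → l ≠ r → fac n (4 * (S * T)) l ≠ 0) :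
    H2 n S * H2 n T = c2 n (-1) := by
  have hE0 : S * T ≠ 0 := (Nat.mul_pos hS hT).ne'
  have h1 := HH_one hev (S * T) hE0
  unfold HH at h1
  rw [Hr_neg' hev hr hr2 hrn hj hE0 ho hf, Finset.prod_congr rfl fun p hp =>
    Hp_neg' hev hST hS hT (fun l hl hln hlE hl2 => hf l hl hlE hl2 (by
      rintro rfl
      exact hrn hln)) hp] at h1
  have h2 := chE_neg_one hev
  unfold chE at h2
  rw [← H2_mul n hS.ne' hT.ne']
  set J : ℤ := ∏ p ∈ n.primeFactors.erase 2, jacobiSym (-1) p
  have h3 : J * J = 1 := by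
    have h4 : c2 n (-1) = 1 ∨ c2 n (-1) = -1 := c2_pm n (by norm_num)
    rcases h4 with h4 | h4 <;> rw [h4] at h2
    · have : J = -1 := by linarith
      rw [this]; norm_num
    · have : J = 1 := by linarith
      rw [this]; norm_num
  linear_combination (-J) * h1 - (H2 n (S * T) - c2 n (-1)) * h3 - J * h2

theorem sgnE_sym' {A n r : ℕ} (hev : Ev n) (hr : r.Prime) (hr2 : r ≠ 2) (hrn : ¬ r ∣ n)
    (hj : jacobiSym (-((n / 4 : ℕ) : ℤ)) r = -1) (hA : A ∣ n) (hkap : kap A n = 1) {k S T : ℕ}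
    (hk : k = 1 ∨ k = 2) (hST : S + T = k * n) (hS : 0 < S) (hT : 0 < T)
    (ho : Odd ((4 * (S * T)).factorization r))
    (hf : ∀ l : ℕ, l.Prime → l ∣ 4 * (S * T) → l ≠ 2 → l ≠ r → fac n (4 * (S * T)) l ≠ 0) :
    sgnE k A n S = sgnE k A n T := by
  unfold sgnE
  have e : ∀ p ∈ A.primeFactors, (if p = 2 then sg2 k n S else sgp k n p S) =
      (if p = 2 then c2 n (-1) else jacobiSym (-1) p) *
        (if p = 2 then sg2 k n T else sgp k n p T) := by
    intro p hp
    have hpp := Nat.prime_of_mem_primeFactors hp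
    have hpn : p ∣ n := (Nat.dvd_of_mem_primeFactors hp).trans hA
    by_cases h2 : p = 2
    · rw [if_pos h2, if_pos h2, if_pos h2, sg2_nat k n hS, sg2_nat k n hT,
        ← H2_sym' hev hr hr2 hrn hj hST hS hT ho hf, mul_assoc, H2_pm hT, mul_one]
    · rw [if_neg h2, if_neg h2, if_neg h2]
      refine sgp_sym hpp h2 hpn (not_sq hev hpp h2 hpn) (not_dvd_k hk hpp h2) hST ?_
      intro hpT
      have h17 : p ≠ r := by
        rintro rfl
        exact hrn hpn
      rw [mul_assoc]
      exact hf p hpp (Dvd.dvd.mul_left (Dvd.dvd.mul_left hpT _) _) h2 h17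
  rw [Finset.prod_congr rfl e, Finset.prod_mul_distrib]
  unfold kap at hkap
  rw [hkap, one_mul]

end Pool.Agent.N218.P15G
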