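import Pool.Agent.N218.P15G.Eis
import Pool.Agent.N218.P15G.Sym
import Pool.Agent.N878.PC21.PE

/-!
# P15G: the Eisenstein part vanishes, `3` inert and `5` split
-/

set_option autoImplicit false

open Finset

namespace Pool.Agent.N218.P15G

open Pool.Agent.Z700 (hh fac)
open Pool.Agent.N969.P15 (un V3 Ev chE tw tb c2)
open Pool.Agent.N969.P17G (chP chM bdE sgn sgnE sgp sg2)
open Pool.Agent.N973.P15G
open N877.P21 (rr cp loc locE)
open Pool.Agent.N973.P17G (kap sgn_sym)

/-- the pairs with given inner product -/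
theorem cp_l1 {n : ℕ} (hn : Ng n) (h3 : n % 3 = 1) {T : ℕ} (h0 : 0 < T) (hT : T < n) :
    (cp n (2 * (T : ℤ) - n) n : ℤ) = 12 * l1 n (2 * (T : ℤ) - n) (4 * (n - T) * T) := by
  have hD : 0 < 4 * (n - T) * T := Nat.mul_pos (Nat.mul_pos (by norm_num) (by omega)) h0
  have e : ((4 * (n - T) * T : ℕ) : ℤ) = (n : ℤ) * n - (2 * (T : ℤ) - n) ^ 2 := by
    push_cast [Nat.cast_sub hT.le]
    ring
  rcases hn with ⟨hs, h4⟩ | hE
  · rw [N878.PC21.t_PC n n _ _ hs h4 (by omega) hD e]
    congr 1
    unfold l1 loc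
    rw [if_neg (by omega : ¬ 2 ∣ n)]
  · have h4 : 4 ∣ n := by
      obtain ⟨m, rfl, -⟩ := hE
      exact dvd_mul_right 4 m
    rw [N878.PC21.t_PCE n n _ _ hE h3 h4 hD e]
    congr 1
    unfold l1 locE
    rw [if_pos (by omega : 2 ∣ n)]

theorem l1_dvd {n : ℕ} {b : ℤ} {D : ℕ} (h : l1 n b D ≠ 0) : Odd (D.factorization 3) := by
  by_contra h'
  apply h
  unfold l1
  rw [if_neg h']

theorem l1_fac {n : ℕ} {b : ℤ} {D : ℕ} (hD : D ≠ 0) (h : l1 n b D ≠ 0) :
    ∀ l : ℕ, l.Prime → l ∣ D → l ≠ 2 → l ≠ 3 → fac n D l ≠ 0 := by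
  intro l hl hlD h2 h3 h0
  apply h
  unfold l1
  rw [if_pos (l1_dvd h)]
  rw [mul_eq_zero]
  right
  refine Finset.prod_eq_zero (i := l) ?_ h0
  rw [Finset.mem_erase, Finset.mem_erase, Nat.mem_primeFactors]
  exact ⟨h3, h2, hl, hlD, hD⟩

theorem l1_neg (n : ℕ) (b : ℤ) (D : ℕ) : l1 n (-b) D = l1 n b D := by
  unfold l1
  have : tb (-b) = tb b := by
    unfold tb
    split_ifs <;> omega
  rw [this]

/-- the symmetry of the signs -/
theorem sg_sym {A m : ℕ} (hA : Ps A) (hm : Ng m) (hc : Nat.Coprime A m) (h3 : (A * m) % 3 = 1)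
    {S T : ℕ} (hST : S + T = A * m) (hS : 0 < S) (hT : 0 < T) {b : ℤ}
    (h : l1 (A * m) b (4 * S * T) ≠ 0) : sg A (A * m) S = sg A (A * m) T := by
  have hn := Ng_mul hA hm hc
  have hD : 4 * S * T ≠ 0 := (Nat.mul_pos (Nat.mul_pos (by norm_num) hS) hT).ne'
  have hdv : A ∣ A * m := dvd_mul_right A m
  have hz := sg_zero hA hm hc
  have hk : S + T = 1 * (A * m) := by rw [one_mul]; exact hST
  rcases id hn with ⟨hs, h4⟩ | hE
  · unfold sg at hz ⊢
    rw [if_neg (by omega), if_neg (by omega)]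
    have hA4 : A % 4 = 1 := by
      rcases hA with ⟨-, h5, -⟩ | ⟨M, rfl, -⟩
      · exact h5
      · exfalso
        have : 2 ∣ 4 * M * m := ⟨2 * M * m, by ring⟩
        omega
    refine sgn_sym hs (by omega) hdv hA4 (Or.inl rfl) hk ?_
    intro p hp hpT
    have hpp := Nat.prime_of_mem_primeFactors hp
    have hpn : p ∣ A * m := (Nat.dvd_of_mem_primeFactors hp).trans hdv
    refine l1_fac hD h p hpp (Dvd.dvd.mul_left hpT _) ?_ ?_
    · rintro rfl
      omega
    · rintro rfl
      omega
  · have h4 : 4 ∣ A * m := by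
      obtain ⟨M, hM, -⟩ := hE
      rw [hM]
      exact dvd_mul_right 4 M
    have h2 : 2 ∣ A * m := by omega
    unfold sg at hz ⊢
    rw [if_pos h2] at hz
    rw [if_pos h2, if_pos h2]
    have hkap : kap A (A * m) = 1 := by
      rw [← hz]
      unfold kap sgnE
      refine Finset.prod_congr rfl fun p _ => ?_
      by_cases hp2 : p = 2
      · rw [if_pos hp2, if_pos hp2]
        unfold sg2
        rw [if_pos rfl]
        simp
      · rw [if_neg hp2, if_neg hp2]
        unfold sgp
        rw [if_pos (dvd_zero _), Int.zero_ediv, if_pos (dvd_zero _)]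
        simp
    have hj : jacobiSym (-((A * m / 4 : ℕ) : ℤ)) 3 = -1 := by
      have : jacobiSym (-((A * m / 4 : ℕ) : ℤ)) 3 = jacobiSym (-1) 3 := by
        apply jacobiSym.mod_left'
        omega
      rw [this]
      norm_num
    have hD' : 4 * S * T = 4 * (S * T) := by ring
    have ho := l1_dvd h
    have hf := l1_fac hD h
    rw [hD'] at ho hf
    exact sgnE_sym' hE Nat.prime_three (by norm_num) (by omega) hj hdv hkap (Or.inl rfl) hk hS hT
      ho hf

/-- the character at `- 3` -/
theorem chM_three {m : ℕ} (hm : Ng m) (h3 : m % 3 = 1) : chM m (-3) = 1 := by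
  have X := chr_M hm
  rw [X.odd]
  have h : chM m 3 = -1 := by
    rcases hm with ⟨h1, h2⟩ | hE
    · rw [chM_odd h1 h2]
      have e := jacobiSym.quadratic_reciprocity_three_mod_four (a := 3) (b := m) (by norm_num) h2
      push_cast at e
      rw [e]
      have : jacobiSym (m : ℤ) 3 = 1 := by
        have h5 : jacobiSym (m : ℤ) 3 = jacobiSym 1 3 := by
          apply jacobiSym.mod_left'
          omega
        rw [h5, jacobiSym.one_left]
      rw [this]
    · rw [chM_even hE]
      have e := Pool.Agent.N975.ChE.chE_prime hE Nat.prime_three (by norm_num)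
      push_cast at e
      rw [e]
      have h4 : 4 ∣ m := by
        obtain ⟨M, rfl, -⟩ := hE
        exact dvd_mul_right 4 M
      have : jacobiSym (-((m / 4 : ℕ) : ℤ)) 3 = jacobiSym (-1) 3 := by
        apply jacobiSym.mod_left'
        omega
      push_cast at this
      rw [this]
      norm_num
  rw [h, neg_neg]

theorem RR_mid {n : ℕ} (hn : 0 < n) (A : ℕ) :
    RR A n = rr n * (sg A n 0 + sg A n n) +
      ∑ T ∈ (range n).filter (fun T => 0 < T), sg A n T * (cp n (2 * (T : ℤ) - n) n : ℤ) := by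
  rw [RR_grp, split_range n hn]
  push_cast
  have cb := cp_bot n
  rw [mul_zero] at cb
  rw [cp_top, cb]
  ring

/-- **EIS4** -/
theorem s_EIS4 (hL : S_LOW0) (hC1 : S_C1L4) (hC2 : S_C2L4) (hCN : S_CNF4) : S_EIS4 := by
  intro A m hA hm hc
  have hPs := hA.1
  have hNg := hm.1
  have hA0 := Ps_pos hPs
  have hm0 := Ng_pos hNg
  have h3A : ¬ 3 ∣ A := by have := hA.2.1; omega
  have h3 : (A * m) % 3 = 1 := by rw [Nat.mul_mod, hA.2.1, hm.2.1]
  have hc3 : Nat.Coprime (A * m) 3 := by
    rw [Nat.coprime_comm]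
    exact (Nat.Prime.coprime_iff_not_dvd Nat.prime_three).2 (by omega)
  have hn := Ng_mul hPs hNg hc
  have hn0 := Ng_pos hn
  have c1 := hC1 A m hPs hNg hc hc3
  have cn := hCN A m hA hm hc
  have hj : jacobiSym (A : ℤ) 3 = 1 := by
    have h5 : jacobiSym (A : ℤ) 3 = jacobiSym 1 3 := by
      apply jacobiSym.mod_left'
      have := hA.2.1
      omega
    rw [h5, jacobiSym.one_left]
  have low : ∑ u ∈ un m, chM m u * Fx w3 A u m = ∑ u ∈ un m, chM m u * bdE A u m :=
    sum_low (A := A) hNg (fun x => Fx w3 A x m) (fun x => bdE A x m) (-3) (by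
      rw [IsCoprime.neg_left_iff]
      have : Nat.Coprime 3 m := (Nat.Prime.coprime_iff_not_dvd Nat.prime_three).2
        (by have := hm.2.1; omega)
      exact_mod_cast this.isCoprime)
      (chM_three hNg hm.2.1) (fun x y h => by
        have h5 : (m : ℤ) ∣ 3 * x * y + 1 := by
          have := dvd_neg.2 h
          have e : -(-3 * (x * y) - 1) = 3 * x * y + 1 := by ring
          rwa [e] at this
        have := hL A hPs h3A x y m (by exact_mod_cast hm0) h5
        rw [hj, one_mul] at this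
        exact this)
  rw [RR_mid hn0, sg_zero hPs hNg hc, sg_top hn (dvd_mul_right A m)]
  -- the interior terms
  set n := A * m with hndef
  set G : ℕ → ℤ := fun T => sg A n T * l1 n (2 * (T : ℤ) - n) (4 * (n - T) * T) with hG
  have e0 : ∑ T ∈ (range n).filter (fun T => 0 < T), sg A n T * (cp n (2 * (T : ℤ) - n) n : ℤ) =
      12 * ∑ T ∈ (range n).filter (fun T => 0 < T), G T := by
    rw [Finset.mul_sum]
    refine Finset.sum_congr rfl fun T hT => ?_
    rw [Finset.mem_filter, Finset.mem_range] at hT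
    rw [cp_l1 hn h3 hT.2 hT.1, hG]
    ring
  rw [e0]
  have e1 : ∑ T ∈ (range n).filter (fun T => 0 < T), G T =
      ∑ T ∈ (range n).filter (fun T => 0 < T ∧ 3 ∣ T), G T +
      ∑ T ∈ (range n).filter (fun T => 0 < T ∧ 3 ∣ n - T), G T := by
    rw [← Finset.sum_filter_add_sum_filter_not ((range n).filter (fun T => 0 < T))
      (fun T => 3 ∣ T), Finset.filter_filter, Finset.filter_filter]
    congr 1
    symm
    refine Finset.sum_subset ?_ ?_
    · intro T hT
      rw [Finset.mem_filter, Finset.mem_range] at hT ⊢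
      exact ⟨hT.1, hT.2.1, by omega⟩
    · intro T hT hT'
      rw [Finset.mem_filter, Finset.mem_range] at hT hT'
      have h5 : ¬ 3 ∣ n - T := fun h => hT' ⟨hT.1, hT.2.1, h⟩
      rw [hG]
      by_contra hne
      have h6 := l1_dvd (right_ne_zero_of_mul hne)
      have h7 : ¬ 3 ∣ 4 * (n - T) * T := by
        intro h8
        rcases (Nat.prime_three.dvd_mul).1 h8 with h9 | h9
        · rcases (Nat.prime_three.dvd_mul).1 h9 with h10 | h10
          · omega
          · exact h5 h10
        · exact hT.2.2 h9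
      rw [Nat.factorization_eq_zero_of_not_dvd h7] at h6
      exact absurd h6 (by decide)
  have e2 : ∑ T ∈ (range n).filter (fun T => 0 < T ∧ 3 ∣ n - T), G T =
      ∑ T ∈ (range n).filter (fun T => 0 < T ∧ 3 ∣ T), G T := by
    refine Finset.sum_nbij' (fun T => n - T) (fun T => n - T) ?_ ?_ ?_ ?_ ?_
    · intro T hT
      simp only [Finset.mem_filter, Finset.mem_range] at hT ⊢
      exact ⟨by omega, by omega, hT.2.2⟩
    · intro T hT
      simp only [Finset.mem_filter, Finset.mem_range] at hT ⊢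
      refine ⟨by omega, by omega, ?_⟩
      rw [Nat.sub_sub_self hT.1.le]
      exact hT.2.2
    · intro T hT
      simp only [Finset.mem_filter, Finset.mem_range] at hT
      show n - (n - T) = T
      omega
    · intro T hT
      simp only [Finset.mem_filter, Finset.mem_range] at hT
      show n - (n - T) = T
      omega
    · intro T hT
      simp only [Finset.mem_filter, Finset.mem_range] at hT
      show sg A n T * l1 n (2 * (T : ℤ) - n) (4 * (n - T) * T) =
        sg A n ((n - T : ℕ) : ℤ) * l1 n (2 * ((n - T : ℕ) : ℤ) - n) (4 * (n - (n - T)) * (n - T))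
      rw [Nat.sub_sub_self hT.1.le]
      have e3 : (2 * ((n - T : ℕ) : ℤ) - n) = -(2 * (T : ℤ) - n) := by
        push_cast [Nat.cast_sub hT.1.le]
        ring
      have e4 : 4 * T * (n - T) = 4 * (n - T) * T := by ring
      rw [e3, l1_neg, e4]
      by_cases h0 : l1 n (2 * (T : ℤ) - n) (4 * (n - T) * T) = 0
      · rw [h0, mul_zero, mul_zero]
      · rw [sg_sym hPs hNg hc h3 (S := n - T) (T := T) (by omega) (by omega) hT.2.1 h0]
  have e5 : ∑ T ∈ (range n).filter (fun T => 3 ∣ T), W3 A m (n - T) T =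
      - ∑ T ∈ (range n).filter (fun T => 0 < T ∧ 3 ∣ T), G T := by
    rw [← Finset.sum_neg_distrib]
    symm
    refine Finset.sum_subset_zero_on_sdiff ?_ ?_ ?_
    · intro T hT
      rw [Finset.mem_filter] at hT ⊢
      exact ⟨hT.1, hT.2.2⟩
    · intro T hT
      rw [Finset.mem_sdiff, Finset.mem_filter, Finset.mem_filter] at hT
      have : T = 0 := by
        by_contra h
        exact hT.2 ⟨hT.1.1, Nat.pos_of_ne_zero h, hT.1.2⟩
      subst this
      unfold W3
      simp
    · intro T hT
      rw [Finset.mem_filter, Finset.mem_range] at hT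
      rw [hC2 A m hA hm hc T hT.2.1 hT.1 hT.2.2, hG]
  rw [low, e5] at c1
  rw [e1, e2]
  linear_combination 12 * c1 - 2 * cn

end Pool.Agent.N218.P15G
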