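import Pool.Agent.N975.T3
import Pool.Agent.N973.P15G.Kap
import Pool.Agent.N974.GN.DualE

/-!
# Project P15G: the rank form of the conjecture for the twists of `X_0(15)` by the negative
discriminants, from a nonvanishing character sum of the counting functions
-/

set_option autoImplicit false

open Finset

namespace Pool.Agent.N218.P15G.Lneg

open Pool.Agent.N969.P15 (un Fp chE Ev)
open Pool.Agent.N969.P17G (chM)
open Pool.Agent.N973.P15 (FA)
open Pool.Agent.N973.P15G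
open Pool.Agent.N974.MF (Symb15 II exists_symb exists_f_neO)
open Pool.Agent.N975.LfinE (exists_f_neE)
open Pool.Agent.N974.GN (Fin15)
open Pool.Agent.Y687 (RankBSD rankBSD)
open Pool.Agent.N975.T1 (symbM_of s14_ne)

/-- the squarefree integer attached to the discriminant `-n` -/
def mN (n : ℕ) : ℕ := if 2 ∣ n then n / 4 else n

theorem mN_odd {n : ℕ} (h : ¬ 2 ∣ n) : mN n = n := by unfold mN; rw [if_neg h]

theorem mN_even {n : ℕ} (h : 2 ∣ n) : mN n = n / 4 := by unfold mN; rw [if_pos h]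

theorem ev2 {n : ℕ} (h : Ev n) : 2 ∣ n := by
  have := Pool.Agent.N975.ChE.ev_mod h
  obtain ⟨k, rfl, -⟩ := h
  omega

/-- odd discriminants -/
theorem bsdO {n : ℕ} (hsq : Squarefree n) (h4 : n % 4 = 3)
    (hne : ∀ (s : ℚ → ℤ) (a : ℕ → ℤ), Symb15 s a →
      ∑ u ∈ un n, jacobiSym u n * s ((u : ℚ) / n) ≠ 0) (hfin : Fin15 (-(n : ℤ))) :
    RankBSD (-12987 * (-(n : ℤ)) ^ 2) (-263466 * (-(n : ℤ)) ^ 3) := by
  have hlat := N975.Lat15.s_lat
  obtain ⟨sp, sm, Op, Om, hOp, hOm, hs, -, -, h15⟩ := exists_symb hlat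
  have hne := hne sm _ h15
  have hab : (-(n : ℤ)).natAbs = n := by rw [Int.natAbs_neg, Int.natAbs_natCast]
  obtain ⟨f, hf, hfp, hf1⟩ := exists_f_neO hlat (-(n : ℤ))
    (by
      intro x hx
      rw [dvd_neg] at hx
      exact Int.squarefree_natCast.2 hsq x hx)
    (by rw [hab]; omega) (by omega) hOp hOm hs
    (Or.inr (by
      rw [hab]
      exact hne))
  exact rankBSD hf hfp hf1 hfin

/-- even discriminants -/
theorem bsdE {n : ℕ} (hE : Ev n)
    (hne : ∀ (s : ℚ → ℤ) (a : ℕ → ℤ), Symb15 s a →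
      ∑ u ∈ un n, chE n u * s ((u : ℚ) / n) ≠ 0) (hfin : Fin15 (-((n / 4 : ℕ) : ℤ))) :
    RankBSD (-12987 * (-((n / 4 : ℕ) : ℤ)) ^ 2) (-263466 * (-((n / 4 : ℕ) : ℤ)) ^ 3) := by
  have hlat := N975.Lat15.s_lat
  obtain ⟨sp, sm, Op, Om, hOp, hOm, hs, -, -, h15⟩ := exists_symb hlat
  have hne := hne sm _ h15
  obtain ⟨f, hf, hfp, hf1⟩ := exists_f_neE hlat hE hOp hOm hs (Or.inr hne)
  exact rankBSD hf hfp hf1 hfin

/-- both parities, from a nonvanishing character sum of the odd symbols -/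
theorem bsd {n : ℕ} (hn : Ng n)
    (hne : ∀ (s : ℚ → ℤ) (a : ℕ → ℤ), Symb15 s a →
      ∑ u ∈ un n, chM n u * s ((u : ℚ) / n) ≠ 0) (hfin : Fin15 (-(mN n : ℤ))) :
    RankBSD (-12987 * (-(mN n : ℤ)) ^ 2) (-263466 * (-(mN n : ℤ)) ^ 3) := by
  rcases hn with ⟨hsq, h4⟩ | hE
  · have h2 : ¬ 2 ∣ n := by omega
    rw [mN_odd h2] at hfin ⊢
    refine bsdO hsq h4 (fun s a h => ?_) hfin
    have e : ∑ u ∈ un n, jacobiSym u n * s ((u : ℚ) / n) =
        ∑ u ∈ un n, chM n u * s ((u : ℚ) / n) :=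
      Finset.sum_congr rfl fun u _ => by rw [chM_odd hsq h4]
    rw [e]
    exact hne s a h
  · rw [mN_even (ev2 hE)] at hfin ⊢
    refine bsdE hE (fun s a h => ?_) hfin
    have e : ∑ u ∈ un n, chE n u * s ((u : ℚ) / n) =
        ∑ u ∈ un n, chM n u * s ((u : ℚ) / n) :=
      Finset.sum_congr rfl fun u _ => by rw [chM_even hE]
    rw [e]
    exact hne s a h

theorem ng_pos {n : ℕ} (hn : Ng n) : n ≠ 0 := by
  rcases hn with ⟨-, h⟩ | h
  · omega
  · exact (Pool.Agent.N975.ChE.ev_pos h).ne'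

/-- **the negative discriminants prime to `15`** -/
theorem bsd_cop {n : ℕ} (hn : Ng n) (h15 : Nat.Coprime n 15)
    (hne : ∑ u ∈ un n, chM n u * Fp u n ≠ 0) (hfin : Fin15 (-(mN n : ℤ))) :
    RankBSD (-12987 * (-(mN n : ℤ)) ^ 2) (-263466 * (-(mN n : ℤ)) ^ 3) := by
  refine bsd hn (fun s a h => ?_) hfin
  rw [N975.T2.sum_symb (symbM_of h) (ng_pos hn) h15.symm (fun u => chM n u)]
  exact mul_ne_zero (s14_ne h) hne

/-- **the negative discriminants divisible by `3`** -/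
theorem bsd_3 (hS : Pool.Agent.N973.P15.S_SYMA) {n : ℕ} (hn : Ng n) (h3 : 3 ∣ n)
    (hne : ∑ u ∈ un n, chM n u * FA u n ≠ 0) (hfin : Fin15 (-(mN n : ℤ))) :
    RankBSD (-12987 * (-(mN n : ℤ)) ^ 2) (-263466 * (-(mN n : ℤ)) ^ 3) := by
  refine bsd hn (fun s a h => ?_) hfin
  rw [N975.T3.sum_symbA hS h (ng_pos hn) h3 (fun u => chM n u)]
  exact mul_ne_zero (neg_ne_zero.2 (N975.T3.s13_ne h)) hne

end Pool.Agent.N218.P15G.Lneg
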