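import Pool.Agent.N218.RQ.Val15
import Pool.Agent.N973.P15G.Defs2

/-!
# P15G: the constant of the class `(+;1,1)` (from the chain of RQ)
-/

set_option autoImplicit false

open Finset

namespace Pool.Agent.N218.P15G

open Pool.Agent.N969.RQ (Fd J o5 S_BILJ15c R15)
open Pool.Agent.N969.P15 (un V3 tw Qc cc Cls0)
open Pool.Agent.N969.P17G (chP)
open Pool.Agent.N973.P15G
open Pool.Agent.N218.RQ (jac_ne)
open Pool.Agent.N218.RQ.F15

theorem fd_of {A : ℕ} (h : Ps A) : Pool.Agent.N969.RQ.Fd A := by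
  rcases h with ⟨h1, h2, h3⟩ | ⟨M, h1, h2, h3⟩
  · exact ⟨h3, Or.inl ⟨h1, h2⟩⟩
  · exact ⟨by omega, Or.inr ⟨M, h1, h2, h3⟩⟩

theorem jac5p {n : ℕ} (h : n % 5 = 1 ∨ n % 5 = 4) : jacobiSym n 5 = 1 := by
  have : jacobiSym n 5 = jacobiSym ((n % 5 : ℕ) : ℤ) 5 := by
    apply jacobiSym.mod_left'
    omega
  rw [this]
  rcases h with h | h <;> rw [h] <;> norm_num

/-- **RQs** -/
theorem s_RQs (hB : S_BILJ15c) : S_RQs := by
  intro A hA
  have hF := fd_of hA.1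
  have hA0 : 0 < A := by have := hF.1; omega
  have hR : R15 A := ⟨hF, hA.2.1, jac5p hA.2.2⟩
  obtain ⟨l, hl, hc, hlA⟩ := exists_l A hA0
  obtain ⟨Z, R, h⟩ := df_of hB hl hc
  obtain ⟨c1, c2, c3, c4⟩ := cls hc
  have hl3 : l ≠ 3 := by omega
  have hl5 : l ≠ 5 := by omega
  have p3 : Nat.Prime 3 := by norm_num
  have p5 : Nat.Prime 5 := by norm_num
  have h3A : ¬ 3 ∣ A := by have := hA.2.1; omega
  have h5A : ¬ 5 ∣ A := by have := hA.2.2; omega
  refine ⟨l, hl, hc, hlA, ?_⟩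
  rw [Pool.Agent.N974.RQ.t_C1D 3 5 A l p3 p5 (by norm_num) (by norm_num)
    (by norm_num) hF hl c1 hl3 hl5 hlA h5A h3A]
  have e : ∀ T ∈ (range (A * l)).filter (fun T => 5 ∣ T ∧ 3 ∣ A * l - T),
      Pool.Agent.N969.RQ.WD 3 5 A l (A * l - T) T =
        - (Pool.Agent.N969.RQ.sl A l T * Pool.Agent.N969.RQ.ld15 (A * l) T) := by
    intro T hT
    rw [mem_filter, mem_range] at hT
    have hT0 : 0 < T := by
      rcases Nat.eq_zero_or_pos T with h0 | h0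
      · exfalso
        rw [h0, Nat.sub_zero] at hT
        rcases (Nat.Prime.dvd_mul p3).1 hT.2.2 with h5 | h5
        · exact h3A h5
        · exact hl3 ((Nat.prime_dvd_prime_iff_eq p3 hl).1 h5).symm
      · exact h0
    exact Pool.Agent.N975.RQ.Du.t_C2D15 A l hR hl hc hlA T hT0 hT.1 hT.2.1 hT.2.2
  rw [sum_congr rfl e, sum_neg_distrib]
  have h5 := (h.b A hlA).1 hR
  rw [r_zero h hl hc (Or.inl hR) hlA, z_val h hl hc hR hlA] at h5
  have h6 : 9 * ∑ T ∈ (range (A * l)).filter (fun T => 5 ∣ T ∧ 3 ∣ A * l - T),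
      Pool.Agent.N969.RQ.sl A l T * Pool.Agent.N969.RQ.ld15 (A * l) T =
        (J 15 o5 A 1 1 3 * cc l) ^ 2 := by linarith
  linear_combination -2 * h6

end Pool.Agent.N218.P15G
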